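import Pool.Agent.H65.CRG.TN
import Pool.Agent.H1.CRZ.SA
import Pool.Agent.H96.CV.Basic
import Pool.Agent.H2.PZ.VV
import Pool.Agent.H58.MZ.SH

/-! Row SA: the sum over all ideals, with shifts. -/

set_option autoImplicit false

open NumberField NumberField.InfinitePlace Complex Filter Topology MeasureTheory

namespace Pool.Agent.H26.CRG

open Pool.Agent.H28.RC Pool.Agent.H25.HK Pool.Agent.H37.CV Pool.Agent.H65.CRZ
open Pool.Agent.H1.CRZ (int_exp_abs line)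
open Pool.Agent.H65.CRG (Sn Vn)

/-- exponential bounds -/
theorem poly_exp (n : ℕ) (a t : ℝ) :
    (1 + |t|) ^ a * Real.exp (8 + 4 * n * |t| - 2 * t ^ 2) ≤
    Real.exp (8 + (|a| + 4 * n + 1) ^ 2) * Real.exp (-|t|) := by
  have h0 : (0 : ℝ) ≤ |t| := abs_nonneg t
  have hn : (0 : ℝ) ≤ n := Nat.cast_nonneg n
  have h1 : (1 + |t|) ^ a ≤ Real.exp (|a| * |t|) := by
    calc (1 + |t|) ^ a ≤ (1 + |t|) ^ |a| :=
          Real.rpow_le_rpow_of_exponent_le (by linarith) (le_abs_self a)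
      _ ≤ (Real.exp |t|) ^ |a| := by
          refine Real.rpow_le_rpow (by linarith) ?_ (abs_nonneg a)
          have := Real.add_one_le_exp |t|
          linarith
      _ = Real.exp (|a| * |t|) := by
          rw [← Real.exp_mul]
          ring_nf
  calc (1 + |t|) ^ a * Real.exp (8 + 4 * n * |t| - 2 * t ^ 2) ≤
        Real.exp (|a| * |t|) * Real.exp (8 + 4 * n * |t| - 2 * t ^ 2) :=
        mul_le_mul_of_nonneg_right h1 (Real.exp_pos _).le
    _ ≤ _ := by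
        rw [← Real.exp_add, ← Real.exp_add]
        apply Real.exp_le_exp.mpr
        have h7 : t ^ 2 = |t| ^ 2 := (sq_abs t).symm
        rw [h7]
        obtain ⟨x, hx⟩ : ∃ x : ℝ, x = |a| + 4 * n + 1 := ⟨_, rfl⟩
        rw [← hx]
        have h8 : |a| = x - 4 * n - 1 := by rw [hx]; ring
        rw [h8]
        nlinarith [sq_nonneg (x - 2 * |t|), sq_nonneg (x - |t|), sq_nonneg |t|, sq_nonneg x]

theorem pf_SA (h0 : Pool.Agent.H65.CRZ.T_G1) (h1 : Pool.Agent.H65.CRG.T_VG) :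
    Pool.Agent.H65.CRG.T_SA := by
  classical
  intro K _ _ E hE
  obtain ⟨hEd, hEs, hE1, hEg⟩ := hE
  obtain ⟨C₁, B₁, hC₁, hB₁, hG⟩ := h0 2
  obtain ⟨C₂, A₂, hE2⟩ := hEg 6
  set a₂ : ℝ := max A₂ 0 with ha₂
  have ha₂0 : 0 ≤ a₂ := le_max_right _ _
  obtain ⟨n, hn⟩ : ∃ n : ℕ, n = nrComplexPlaces K := ⟨_, rfl⟩
  rw [← hn]
  set D : ℝ := Real.exp (8 + (|a₂| + 4 * n + 1) ^ 2) with hD
  have hD0 : 0 < D := Real.exp_pos _
  set C₃ : ℝ := |C₂| * 2 ^ a₂ * (C₁ ^ 2) ^ n * D with hC₃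
  have hC₃0 : 0 ≤ C₃ := by positivity
  set J : ℝ := ∫ t : ℝ, Real.exp (-|t|) with hJ
  have hJ0 : 0 ≤ J := integral_nonneg fun t => (Real.exp_pos _).le
  refine ⟨C₃ * 24 * J + 1, 2 * B₁ * n, by positivity, by positivity, ?_⟩
  intro s₁ s₂ ω Y hs₁ hs₂ hsum hω hω8 hY
  have hYc : (Y : ℂ) ≠ 0 := by exact_mod_cast hY.ne'
  have hs₁' := abs_le.1 hs₁
  have hs₂' := abs_le.1 hs₂
  have hs₁a : 1 / 4 ≤ s₁.re := by linarith [hs₁'.1]
  have hs₁b : s₁.re ≤ 3 / 4 := by linarith [hs₁'.2]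
  have hs₂a : 1 / 4 ≤ s₂.re := by linarith [hs₂'.1]
  have hs₂b : s₂.re ≤ 3 / 4 := by linarith [hs₂'.2]
  have hωre : |ω.re| ≤ 1 / 8 := (Complex.abs_re_le_norm ω).trans hω8
  have hωim : |ω.im| ≤ 1 / 8 := (Complex.abs_im_le_norm ω).trans hω8
  have hωre' := abs_le.1 hωre
  obtain ⟨S, hS⟩ : ∃ S : ℝ, S = 1 + |s₁.im| + |s₂.im| := ⟨_, rfl⟩
  have hS1 : 1 ≤ S := by
    rw [hS]
    linarith [abs_nonneg s₁.im, abs_nonneg s₂.im]
  -- the Gamma factors
  have hΓ₁ : Gamma s₁ ≠ 0 := Complex.Gamma_ne_zero_of_re_pos (by linarith)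
  have hΓ₂ : Gamma s₂ ≠ 0 := Complex.Gamma_ne_zero_of_re_pos (by linarith)
  have hGqd : ∀ w : ℂ, (-(1 / 8) : ℝ) ≤ w.re → DifferentiableAt ℂ (Gq s₁ s₂) w := by
    intro w hw
    have e1 : DifferentiableAt ℂ (fun w : ℂ => Gamma (s₁ + w)) w := by
      have e2 : DifferentiableAt ℂ Gamma (s₁ + w) := by
        apply Complex.differentiableAt_Gamma
        intro m hm
        have := congrArg Complex.re hm
        simp at this
        have hm0 : (0 : ℝ) ≤ m := Nat.cast_nonneg m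
        linarith
      exact e2.comp w (by fun_prop)
    have e3 : DifferentiableAt ℂ (fun w : ℂ => Gamma (s₂ + w)) w := by
      have e2 : DifferentiableAt ℂ Gamma (s₂ + w) := by
        apply Complex.differentiableAt_Gamma
        intro m hm
        have := congrArg Complex.re hm
        simp at this
        have hm0 : (0 : ℝ) ≤ m := Nat.cast_nonneg m
        linarith
      exact e2.comp w (by fun_prop)
    exact (e1.mul e3).div_const _
  have hGqb : ∀ w : ℂ, (-(1 / 8) : ℝ) ≤ w.re → w.re ≤ 2 →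
      ‖Gq s₁ s₂ w‖ ≤ C₁ ^ 2 * S ^ (2 * B₁) * Real.exp (4 * |w.im|) := by
    intro w hw1 hw2
    have e1 := hG s₁ w hs₁a hs₁b hw1 hw2
    have e2 := hG s₂ w hs₂a hs₂b hw1 hw2
    have n1 : 0 < ‖Gamma s₁‖ := norm_pos_iff.2 hΓ₁
    have n2 : 0 < ‖Gamma s₂‖ := norm_pos_iff.2 hΓ₂
    have e3 : (1 + |s₁.im|) ^ B₁ ≤ S ^ B₁ := by
      refine Real.rpow_le_rpow (by positivity) ?_ hB₁
      rw [hS]
      linarith [abs_nonneg s₂.im]
    have e4 : (1 + |s₂.im|) ^ B₁ ≤ S ^ B₁ := by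
      refine Real.rpow_le_rpow (by positivity) ?_ hB₁
      rw [hS]
      linarith [abs_nonneg s₁.im]
    unfold Gq
    rw [norm_div, norm_mul, norm_mul, div_le_iff₀ (mul_pos n1 n2)]
    have e5 : S ^ (2 * B₁) = S ^ B₁ * S ^ B₁ := by
      rw [two_mul, Real.rpow_add (by linarith)]
    have e6 : Real.exp (4 * |w.im|) = Real.exp (2 * |w.im|) * Real.exp (2 * |w.im|) := by
      rw [← Real.exp_add]
      congr 1
      ring
    have e7 : ‖Gamma (s₁ + w)‖ ≤ C₁ * S ^ B₁ * Real.exp (2 * |w.im|) * ‖Gamma s₁‖ :=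
      e1.trans (by gcongr)
    have e8 : ‖Gamma (s₂ + w)‖ ≤ C₁ * S ^ B₁ * Real.exp (2 * |w.im|) * ‖Gamma s₂‖ :=
      e2.trans (by gcongr)
    calc ‖Gamma (s₁ + w)‖ * ‖Gamma (s₂ + w)‖ ≤
          (C₁ * S ^ B₁ * Real.exp (2 * |w.im|) * ‖Gamma s₁‖) *
          (C₁ * S ^ B₁ * Real.exp (2 * |w.im|) * ‖Gamma s₂‖) :=
          mul_le_mul e7 e8 (norm_nonneg _) ((norm_nonneg _).trans e7)
      _ = _ := by
          rw [e5, e6]
          ring
  have hGnb : ∀ w : ℂ, (-(1 / 8) : ℝ) ≤ w.re → w.re ≤ 2 →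
      ‖Gq s₁ s₂ w ^ n‖ ≤ (C₁ ^ 2) ^ n * S ^ (2 * B₁ * n) * Real.exp (4 * n * |w.im|) := by
    intro w hw1 hw2
    rw [norm_pow]
    refine (pow_le_pow_left₀ (norm_nonneg _) (hGqb w hw1 hw2) n).trans (le_of_eq ?_)
    rw [mul_pow, mul_pow, Real.rpow_mul (by linarith) (2 * B₁) n, Real.rpow_natCast,
      ← Real.exp_nat_mul]
    congr 2
    ring
  have hGq0 : Gq s₁ s₂ 0 = 1 := by
    unfold Gq
    rw [add_zero, add_zero]
    exact div_self (mul_ne_zero hΓ₁ hΓ₂)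
  -- the function
  set Φ : ℂ → ℂ := fun w => E (1 + ω + 2 * w) * Gq s₁ s₂ w ^ n * cexp (2 * w ^ 2) * (Y : ℂ) ^ w
    with hΦ
  have hΦd : ∀ w : ℂ, (-(1 / 8) : ℝ) ≤ w.re → w.re ≤ 2 → DifferentiableAt ℂ Φ w := by
    intro w hw1 _
    have e1 : DifferentiableAt ℂ (fun w : ℂ => E (1 + ω + 2 * w)) w :=
      (hEd (1 + ω + 2 * w)).comp w (by fun_prop)
    have e2 : DifferentiableAt ℂ (fun w : ℂ => cexp (2 * w ^ 2)) w := by fun_prop
    exact ((e1.mul ((hGqd w hw1).pow n)).mul e2).mul ((differentiableAt_id).const_cpow (Or.inl hYc))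
  have hnY : ∀ w : ℂ, ‖(Y : ℂ) ^ w‖ = Y ^ w.re := fun w =>
    Complex.norm_cpow_eq_rpow_re_of_pos hY w
  have hΦb : ∀ w : ℂ, (-(1 / 8) : ℝ) ≤ w.re → w.re ≤ 2 →
      ‖Φ w‖ ≤ C₃ * S ^ (2 * B₁ * n) * Y ^ w.re * Real.exp (-|w.im|) := by
    intro w hw1 hw2
    have b2 : ‖E (1 + ω + 2 * w)‖ ≤ |C₂| * (2 ^ a₂ * (1 + |w.im|) ^ a₂) := by
      have c1 : |(1 + ω + 2 * w).re| ≤ 6 := by
        simp only [Complex.add_re, Complex.one_re, Complex.mul_re, Complex.re_ofNat,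
          Complex.im_ofNat, zero_mul, sub_zero]
        rw [abs_le]
        constructor <;> linarith [hωre'.1, hωre'.2]
      refine (hE2 _ c1).trans ?_
      refine mul_le_mul (le_abs_self _) ?_ (by positivity) (abs_nonneg _)
      have c2 : |(1 + ω + 2 * w).im| ≤ 1 / 8 + 2 * |w.im| := by
        have c3 : (1 + ω + 2 * w).im = ω.im + 2 * w.im := by
          simp
        rw [c3]
        refine (abs_add_le _ _).trans ?_
        rw [abs_mul, abs_two]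
        linarith
      have c4 : 1 ≤ 1 + |(1 + ω + 2 * w).im| := by linarith [abs_nonneg (1 + ω + 2 * w).im]
      calc (1 + |(1 + ω + 2 * w).im|) ^ A₂ ≤ (1 + |(1 + ω + 2 * w).im|) ^ a₂ :=
            Real.rpow_le_rpow_of_exponent_le c4 (le_max_left _ _)
        _ ≤ (2 * (1 + |w.im|)) ^ a₂ := by
            refine Real.rpow_le_rpow (by positivity) ?_ ha₂0
            linarith
        _ = 2 ^ a₂ * (1 + |w.im|) ^ a₂ := Real.mul_rpow (by norm_num) (by positivity)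
    have b3 : ‖cexp (2 * w ^ 2)‖ ≤ Real.exp (8 - 2 * w.im ^ 2) := by
      rw [Complex.norm_exp]
      apply Real.exp_le_exp.mpr
      have e : (2 * w ^ 2).re = 2 * (w.re ^ 2 - w.im ^ 2) := by
        rw [sq w]
        simp only [mul_re, Complex.re_ofNat, Complex.im_ofNat, zero_mul, sub_zero]
        ring
      rw [e]
      nlinarith
    simp only [hΦ]
    rw [norm_mul, norm_mul, norm_mul, hnY]
    have hY' : 0 ≤ Y ^ w.re := (Real.rpow_pos_of_pos hY _).le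
    calc ‖E (1 + ω + 2 * w)‖ * ‖Gq s₁ s₂ w ^ n‖ * ‖cexp (2 * w ^ 2)‖ * Y ^ w.re ≤
          (|C₂| * (2 ^ a₂ * (1 + |w.im|) ^ a₂)) *
            ((C₁ ^ 2) ^ n * S ^ (2 * B₁ * n) * Real.exp (4 * n * |w.im|)) *
              Real.exp (8 - 2 * w.im ^ 2) * Y ^ w.re := by
          have := hGnb w hw1 hw2
          gcongr
      _ = (|C₂| * 2 ^ a₂ * (C₁ ^ 2) ^ n) * S ^ (2 * B₁ * n) * Y ^ w.re *
            ((1 + |w.im|) ^ a₂ * Real.exp (8 + 4 * n * |w.im| - 2 * w.im ^ 2)) := by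
          rw [show 8 + 4 * n * |w.im| - 2 * w.im ^ 2 = 4 * n * |w.im| + (8 - 2 * w.im ^ 2) by ring,
            Real.exp_add]
          ring
      _ ≤ (|C₂| * 2 ^ a₂ * (C₁ ^ 2) ^ n) * S ^ (2 * B₁ * n) * Y ^ w.re *
            (D * Real.exp (-|w.im|)) :=
          mul_le_mul_of_nonneg_left (poly_exp n a₂ w.im) (by positivity)
      _ = _ := by
          rw [hC₃]
          ring
  -- the shift
  set M : ℝ := C₃ * S ^ (2 * B₁ * n) * (Y ^ (2 : ℝ) + Y ^ (-(1 / 8) : ℝ)) with hM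
  have hYr : ∀ x : ℝ, (-(1 / 8) : ℝ) ≤ x → x ≤ 2 → Y ^ x ≤ Y ^ (2 : ℝ) + Y ^ (-(1 / 8) : ℝ) := by
    intro x hx1 hx2
    rcases le_total 1 Y with h | h
    · have := Real.rpow_le_rpow_of_exponent_le h hx2
      have := Real.rpow_pos_of_pos hY (-(1 / 8) : ℝ)
      linarith
    · have := Real.rpow_le_rpow_of_exponent_ge hY h hx1
      have := Real.rpow_pos_of_pos hY (2 : ℝ)
      linarith
  have hΦM : ∀ w : ℂ, (-(1 / 8) : ℝ) ≤ w.re → w.re ≤ 2 → ‖Φ w‖ ≤ M * Real.exp (-|w.im|) := by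
    intro w hw1 hw2
    refine (hΦb w hw1 hw2).trans ?_
    have := hYr w.re hw1 hw2
    rw [hM]
    gcongr
  have hSH := Pool.Agent.H58.MZ.sh Pool.Agent.H2.PZ.vv
  have hp1 : (0 : ℂ).re = 0 := rfl
  have hp2 : (-(ω / 2)).re = -(ω.re / 2) := by simp
  have hsh1 := hSH Φ (-(1 / 8)) 2 M 0 (by rw [hp1]; norm_num) (by rw [hp1]; norm_num) hΦd hΦM
  have hsh2 := hSH Φ (-(1 / 8)) 2 M (-(ω / 2)) (by rw [hp2]; linarith [hωre'.2])
    (by rw [hp2]; linarith [hωre'.1]) hΦd hΦM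
  have hR1 := line Φ 2 M 1 0 one_pos (by rw [hp1]; norm_num)
    (fun s hs => hΦd s (by rw [hs]; norm_num) hs.le) (fun s hs => hΦM s (by rw [hs]; norm_num) hs.le)
  have hR2 := line Φ 2 M 1 (-(ω / 2)) one_pos
    (by
      rw [hp2]
      refine le_trans ?_ (le_abs_self _)
      linarith [hωre'.1])
    (fun s hs => hΦd s (by rw [hs]; norm_num) hs.le) (fun s hs => hΦM s (by rw [hs]; norm_num) hs.le)
  obtain ⟨M', hM'⟩ : ∃ M' : ℝ, M' = C₃ * S ^ (2 * B₁ * n) * Y ^ (-(1 / 8) : ℝ) := ⟨_, rfl⟩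
  have hΦL : ∀ s : ℂ, s.re = -(1 / 8) → ‖Φ s‖ ≤ M' * Real.exp (-|s.im|) := by
    intro s hs
    have := hΦb s hs.ge (by rw [hs]; norm_num)
    rw [hs] at this
    rw [hM']
    exact this
  have hL1 := line Φ (-(1 / 8)) M' (1 / 8) 0 (by norm_num)
    (by rw [hp1, sub_zero, abs_neg, abs_of_pos (by norm_num)])
    (fun s hs => hΦd s hs.ge (by rw [hs]; norm_num)) hΦL
  have hL2 := line Φ (-(1 / 8)) M' (1 / 16) (-(ω / 2)) (by norm_num)
    (by
      rw [hp2, abs_sub_comm]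
      refine le_trans ?_ (le_abs_self _)
      linarith [hωre'.2])
    (fun s hs => hΦd s hs.ge (by rw [hs]; norm_num)) hΦL
  have hΦ0 : Φ 0 = E (1 + ω) := by
    simp only [hΦ]
    rw [mul_zero, add_zero, hGq0, Complex.cpow_zero, one_pow]
    simp
  have hΦ1 : Φ (-(ω / 2)) =
      (rho K : ℂ) * Gq s₁ s₂ (-(ω / 2)) ^ n * cexp (ω ^ 2 / 2) * (Y : ℂ) ^ (-(ω / 2)) := by
    simp only [hΦ]
    have e1 : 1 + ω + 2 * -(ω / 2) = 1 := by ring
    have e2 : 2 * (-(ω / 2)) ^ 2 = ω ^ 2 / 2 := by ring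
    rw [e1, e2, hE1]
  -- the sum is the integral on the right
  have hright : Sn (K := K) ⊤ s₁ s₂ Y = 1 / ω * (((1 / (2 * Real.pi) : ℝ) : ℂ) *
      (∫ t : ℝ, Φ (((2 : ℝ) : ℂ) + t * I) / (((2 : ℝ) : ℂ) + t * I - 0)) -
      ((1 / (2 * Real.pi) : ℝ) : ℂ) *
      ∫ t : ℝ, Φ (((2 : ℝ) : ℂ) + t * I) / (((2 : ℝ) : ℂ) + t * I - -(ω / 2))) := by
    set φ : ℝ → ℂ := fun t => Gq s₁ s₂ (2 + t * I) ^ n * (cexp (2 * (2 + t * I) ^ 2) / (2 + t * I))
      with hφ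
    have hφi : Integrable φ := by
      obtain ⟨_, _, _, _, h2⟩ := h1 n 2 two_pos
      obtain ⟨h3, -, -⟩ := h2 s₁ s₂ hs₁a hs₁b hs₂a hs₂b 1 one_pos
      simpa [hφ] using h3
    set f : NI K → ℝ → ℂ := fun I t => ((nm I.1 : ℝ) : ℂ) ^ (-(s₁ + s₂)) *
      (φ t * (((nm I.1 ^ 2 / Y : ℝ) : ℂ) ^ (-(2 + t * Complex.I)))) with hf
    have hx : ∀ I : NI K, 0 < nm I.1 ^ 2 / Y := fun I => by
      have := Pool.Agent.H96.CV.nm_pos I.2
      positivity
    have hre5 : 1 < (5 + ω).re := by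
      rw [Complex.add_re]
      have : (5 : ℂ).re = 5 := by simp
      rw [this]
      linarith [hωre'.1]
    have hfn : ∀ (I : NI K) (t : ℝ), ‖f I t‖ =
        ‖((nm I.1 : ℝ) : ℂ) ^ (-(5 + ω))‖ * Y ^ 2 * ‖φ t‖ := by
      intro I t
      have h1 := Pool.Agent.H96.CV.nm_pos I.2
      simp only [hf]
      rw [norm_mul, norm_mul, Complex.norm_cpow_eq_rpow_re_of_pos h1,
        Complex.norm_cpow_eq_rpow_re_of_pos h1, Complex.norm_cpow_eq_rpow_re_of_pos (hx I)]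
      have h2 : (-(2 + (t : ℂ) * Complex.I)).re = -(2 : ℝ) := by simp
      have h3 : (-(s₁ + s₂)).re = -(1 + ω.re) := by
        rw [hsum]
        simp
      have h4 : (-(5 + ω)).re = -(1 + ω.re) + -4 := by
        simp
        ring
      rw [h2, h3, h4, Real.rpow_neg (hx I).le, Real.rpow_add h1, Real.rpow_neg h1.le (4 : ℝ)]
      have h5 : (nm I.1 ^ 2 / Y) ^ (2 : ℝ) = (nm I.1 ^ 2 / Y) ^ 2 := by
        norm_cast
      have h6 : nm I.1 ^ (4 : ℝ) = nm I.1 ^ 4 := by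
        norm_cast
      rw [h5, h6]
      field_simp
    have hfm : ∀ I : NI K, AEStronglyMeasurable (f I) volume := by
      intro I
      have h1 : Continuous (fun t : ℝ => ((nm I.1 ^ 2 / Y : ℝ) : ℂ) ^ (-(2 + t * Complex.I))) := by
        refine Continuous.const_cpow (by fun_prop) (Or.inl ?_)
        exact_mod_cast (hx I).ne'
      exact (hφi.aestronglyMeasurable.mul h1.aestronglyMeasurable).const_mul _
    have hfi : ∀ I : NI K, Integrable (f I) := by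
      intro I
      refine (hφi.norm.const_mul (‖((nm I.1 : ℝ) : ℂ) ^ (-(5 + ω))‖ * Y ^ 2)).mono' (hfm I) ?_
      exact Eventually.of_forall fun t => (hfn I t).le
    have hsumm : Summable (fun I : NI K => ∫ t, ‖f I t‖) := by
      have h1 := (hEs (5 + ω) hre5).1
      have h2 : (fun I : NI K => ∫ t, ‖f I t‖) =
          fun I : NI K => ‖((nm I.1 : ℝ) : ℂ) ^ (-(5 + ω))‖ * (Y ^ 2 * ∫ t, ‖φ t‖) := by
        funext I
        simp only [hfn]
        rw [integral_const_mul]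
        ring
      rw [h2]
      exact h1.mul_right _
    have hcount : Countable (NI K) := by
      have h1 : Function.support (fun I : NI K => ‖((nm I.1 : ℝ) : ℂ) ^ (-(5 + ω))‖) =
          Set.univ := by
        ext I
        simp only [Function.mem_support, Set.mem_univ, iff_true]
        rw [Complex.norm_cpow_eq_rpow_re_of_pos (Pool.Agent.H96.CV.nm_pos I.2)]
        exact (Real.rpow_pos_of_pos (Pool.Agent.H96.CV.nm_pos I.2) _).ne'
      have h2 := (hEs (5 + ω) hre5).1.countable_support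
      rw [h1] at h2
      exact Set.countable_univ_iff.1 h2
    have hkey : ∀ t : ℝ, ∑' I : NI K, f I t = 1 / ω *
        (Φ (((2 : ℝ) : ℂ) + t * Complex.I) / (((2 : ℝ) : ℂ) + t * Complex.I - 0) -
          Φ (((2 : ℝ) : ℂ) + t * Complex.I) / (((2 : ℝ) : ℂ) + t * Complex.I - -(ω / 2))) := by
      intro t
      have h6 : (((2 : ℝ) : ℂ) + t * Complex.I) = 2 + t * Complex.I := by push_cast; rfl
      rw [h6]
      set s : ℂ := 2 + t * Complex.I with hs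
      have hsre : s.re = 2 := by simp [hs]
      have hs0 : s ≠ 0 := by
        intro h
        have := congrArg Complex.re h
        rw [hsre] at this
        simp at this
      have hs1 : ω + 2 * s ≠ 0 := by
        intro h
        have := congrArg Complex.re h
        simp [hsre] at this
        linarith [hωre'.1]
      have hs2 : s - -(ω / 2) ≠ 0 := by
        intro h
        apply hs1
        linear_combination 2 * h
      have hre1 : 1 < (1 + ω + 2 * s).re := by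
        simp [hsre]
        linarith [hωre'.1]
      have h1 : ∀ I : NI K, f I t = (φ t * (Y : ℂ) ^ s) *
          ((nm I.1 : ℝ) : ℂ) ^ (-(1 + ω + 2 * s)) := by
        intro I
        have hn := Pool.Agent.H96.CV.nm_pos I.2
        have hnc : ((nm I.1 : ℝ) : ℂ) ≠ 0 := by exact_mod_cast hn.ne'
        simp only [hf]
        rw [← hs]
        have h2 : ((nm I.1 ^ 2 / Y : ℝ) : ℂ) ^ (-s) =
            ((nm I.1 : ℝ) : ℂ) ^ (-(2 * s)) * (Y : ℂ) ^ s := by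
          have hxc : ((nm I.1 ^ 2 / Y : ℝ) : ℂ) ≠ 0 := by exact_mod_cast (hx I).ne'
          rw [Complex.cpow_def_of_ne_zero hxc, Complex.cpow_def_of_ne_zero hnc,
            Complex.cpow_def_of_ne_zero hYc, ← Complex.exp_add, ← Complex.ofReal_log (hx I).le,
            ← Complex.ofReal_log hn.le, ← Complex.ofReal_log hY.le,
            Real.log_div (by positivity) (by positivity), Real.log_pow]
          congr 1
          push_cast
          ring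
        have h3 : ((nm I.1 : ℝ) : ℂ) ^ (-(1 + ω + 2 * s)) =
            ((nm I.1 : ℝ) : ℂ) ^ (-(s₁ + s₂)) * ((nm I.1 : ℝ) : ℂ) ^ (-(2 * s)) := by
          rw [← Complex.cpow_add _ _ hnc, hsum]
          congr 1
          ring
        rw [h2, h3]
        ring
      simp only [h1]
      rw [tsum_mul_left]
      have h4 := (hEs (1 + ω + 2 * s) hre1).2
      have h5 : ∑' I : NI K, ((nm I.1 : ℝ) : ℂ) ^ (-(1 + ω + 2 * s)) =
          E (1 + ω + 2 * s) / (ω + 2 * s) := by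
        rw [h4]
        rw [show 1 + ω + 2 * s - 1 = ω + 2 * s by ring]
        field_simp
      rw [h5]
      simp only [hΦ, hφ]
      rw [← hs, sub_zero]
      have h7 : s - -(ω / 2) = (ω + 2 * s) / 2 := by ring
      rw [h7]
      field_simp
      ring
    have hexch := integral_tsum_of_summable_integral_norm hfi hsumm
    have hre2 : Sn (K := K) ⊤ s₁ s₂ Y = ∑' I : NI K, ((nm I.1 : ℝ) : ℂ) ^ (-(s₁ + s₂)) *
        Vn n s₁ s₂ (nm I.1 ^ 2 / Y) := by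
      unfold Sn
      rw [← hn]
      exact ((Equiv.subtypeEquivRight (fun t : Ideal (𝓞 K) => (by simp :
        t ≠ ⊥ ↔ t ≠ ⊥ ∧ t ⊔ ⊤ = ⊤))).tsum_eq _).symm
    have hterm : ∀ I : NI K, ((nm I.1 : ℝ) : ℂ) ^ (-(s₁ + s₂)) * Vn n s₁ s₂ (nm I.1 ^ 2 / Y) =
        ((1 / (2 * Real.pi) : ℝ) : ℂ) * ∫ t, f I t := by
      intro I
      simp only [hf]
      rw [integral_const_mul]
      unfold Vn
      simp only [hφ]
      ring
    rw [hre2]
    simp only [hterm]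
    rw [tsum_mul_left, hexch]
    simp only [hkey]
    rw [integral_const_mul, integral_sub hR1.1 hR2.1]
    ring
  rw [hright]
  rw [hΦ0] at hsh1
  rw [hΦ1] at hsh2
  have e1 := sub_eq_iff_eq_add.1 hsh1
  have e2 := sub_eq_iff_eq_add.1 hsh2
  rw [e1, e2]
  obtain ⟨X₁, hX₁⟩ : ∃ X₁ : ℂ, X₁ = ∫ t : ℝ, Φ (((-(1 / 8) : ℝ) : ℂ) + t * I) /
      (((-(1 / 8) : ℝ) : ℂ) + t * I - 0) := ⟨_, rfl⟩
  obtain ⟨X₂, hX₂⟩ : ∃ X₂ : ℂ, X₂ = ∫ t : ℝ, Φ (((-(1 / 8) : ℝ) : ℂ) + t * I) /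
      (((-(1 / 8) : ℝ) : ℂ) + t * I - -(ω / 2)) := ⟨_, rfl⟩
  have hL1' := hL1.2
  have hL2' := hL2.2
  rw [← hX₁] at hL1' ⊢
  rw [← hX₂] at hL2' ⊢
  have e3 : 1 / ω * (E (1 + ω) + ((1 / (2 * Real.pi) : ℝ) : ℂ) * X₁ -
      ((rho K : ℂ) * Gq s₁ s₂ (-(ω / 2)) ^ n * cexp (ω ^ 2 / 2) * (Y : ℂ) ^ (-(ω / 2)) +
        ((1 / (2 * Real.pi) : ℝ) : ℂ) * X₂)) - 1 / ω * (E (1 + ω) -
      (rho K : ℂ) * Gq s₁ s₂ (-(ω / 2)) ^ n * cexp (ω ^ 2 / 2) * (Y : ℂ) ^ (-(ω / 2))) =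
      1 / ω * (((1 / (2 * Real.pi) : ℝ) : ℂ) * (X₁ - X₂)) := by ring
  rw [e3, norm_mul, norm_div, norm_one, norm_mul, Complex.norm_real,
    Real.norm_of_nonneg (by positivity)]
  have hω0 : 0 < ‖ω‖ := norm_pos_iff.2 hω
  have hpi : 1 / (2 * Real.pi) ≤ 1 := by
    rw [div_le_one (by positivity)]
    linarith [Real.pi_gt_three]
  have hM'0 : 0 ≤ M' := by
    rw [hM']
    positivity
  have e4 : ‖X₁ - X₂‖ ≤ M' * 24 * J := by
    refine (norm_sub_le _ _).trans ?_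
    have : M' / (1 / 8) * J + M' / (1 / 16) * J = M' * 24 * J := by ring
    linarith
  have e5 : 1 / (2 * Real.pi) * ‖X₁ - X₂‖ ≤ M' * 24 * J := by
    calc 1 / (2 * Real.pi) * ‖X₁ - X₂‖ ≤ 1 * (M' * 24 * J) :=
          mul_le_mul hpi e4 (norm_nonneg _) zero_le_one
      _ = _ := one_mul _
  have hYp : 0 < Y ^ (-(1 / 8) : ℝ) := Real.rpow_pos_of_pos hY _
  have hSp : 0 < S ^ (2 * B₁ * n) := Real.rpow_pos_of_pos (by linarith) _
  calc 1 / ‖ω‖ * (1 / (2 * Real.pi) * ‖X₁ - X₂‖) ≤ 1 / ‖ω‖ * (M' * 24 * J) := by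
        gcongr
    _ = (C₃ * 24 * J) * S ^ (2 * B₁ * n) * Y ^ (-(1 / 8) : ℝ) / ‖ω‖ := by
        rw [hM']
        ring
    _ ≤ (C₃ * 24 * J + 1) * S ^ (2 * B₁ * n) * Y ^ (-(1 / 8) : ℝ) / ‖ω‖ := by
        gcongr
        linarith
    _ = _ := by rw [hS]

end Pool.Agent.H26.CRG
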